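import Pool.Graph.R_seed8.Y599.IPT.Red

/-! Colourings of the positive integers by sums over consecutive ternary positions: the value at a
junction of two separated elements. -/

set_option autoImplicit false

namespace Pool.Agent.H64.IPT

open Pool.Agent.H645R2.HT

/-- `x`, `u`, `v`. -/
def c2 (F : ℕ → ℕ → ℕ → ℕ) (_s x u v : ℕ) : Bool := decide (F x u v = 1)

/-- `u`, `v`, `s`. -/
def c3 (F : ℕ → ℕ → ℕ → ℕ) (s _x u v : ℕ) : Bool := decide (F u v s = 1)

/-- Both. -/
def c4 (F : ℕ → ℕ → ℕ → ℕ) (s x u v : ℕ) : Bool := decide (F x u v = 1) && decide (F u v s = 1)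

/-- Equality of the colours of sums of at most four separated elements. -/
structure Hom (c : ℕ → Bool) (X : Set ℕ) (i : Bool) : Prop where
  one : ∀ h ∈ X, c h = i
  two : ∀ h ∈ X, ∀ k ∈ X, Sep h k → c (h + k) = i
  three : ∀ h ∈ X, ∀ k ∈ X, ∀ l ∈ X, Sep h k → Sep k l → c (h + (k + l)) = i
  four : ∀ h ∈ X, ∀ k ∈ X, ∀ l ∈ X, ∀ m ∈ X, Sep h k → Sep k l → Sep l m →
    c (h + (k + (l + m))) = i

variable {F : ℕ → ℕ → ℕ → ℕ} {X : Set ℕ} {i : Bool}

theorem C_two {γ : ℕ → ℕ → ℕ → ℕ → Bool} {h k : ℕ} (hh : 0 < h) (hk : 0 < k) (hhk : Sep h k) :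
    C γ (h + k) = xor (xor (gs (γ (mu k) (la h)) (L h)) (γ (mu k) (la h) (mu h) (la k)))
      (gs (γ (mu k) (la h)) (L k)) := by
  unfold C
  rw [mu_add hk hhk, la_add hh hhk, gs_add hh hk hhk]

theorem C_three {γ : ℕ → ℕ → ℕ → ℕ → Bool} {h k l : ℕ} (hh : 0 < h) (hk : 0 < k) (hl : 0 < l)
    (hhk : Sep h k) (hkl : Sep k l) :
    C γ (h + (k + l)) = xor (xor (gs (γ (mu l) (la h)) (L h)) (γ (mu l) (la h) (mu h) (la k)))
      (xor (xor (gs (γ (mu l) (la h)) (L k)) (γ (mu l) (la h) (mu k) (la l)))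
        (gs (γ (mu l) (la h)) (L l))) := by
  have h1 := sep_add_right hk hhk hkl
  unfold C
  rw [mu_add (by omega) h1, la_add hh h1, mu_add hl hkl, gs_add hh (by omega) h1, la_add hk hkl,
    gs_add hk hl hkl]

theorem C_four {γ : ℕ → ℕ → ℕ → ℕ → Bool} {h k l m : ℕ} (hh : 0 < h) (hk : 0 < k) (hl : 0 < l)
    (hm : 0 < m) (hhk : Sep h k) (hkl : Sep k l) (hlm : Sep l m) :
    C γ (h + (k + (l + m))) =
      xor (xor (gs (γ (mu m) (la h)) (L h)) (γ (mu m) (la h) (mu h) (la k)))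
      (xor (xor (gs (γ (mu m) (la h)) (L k)) (γ (mu m) (la h) (mu k) (la l)))
        (xor (xor (gs (γ (mu m) (la h)) (L l)) (γ (mu m) (la h) (mu l) (la m)))
          (gs (γ (mu m) (la h)) (L m)))) := by
  have h0 := sep_add_right hl hkl hlm
  have h1 := sep_add_right (k := k) (l := l + m) hk hhk h0
  unfold C
  rw [mu_add (by omega) h1, la_add hh h1, mu_add (by omega) h0, mu_add hm hlm,
    gs_add hh (by omega) h1, la_add hk h0, gs_add hk (by omega) h0, la_add hl hlm,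
    gs_add hl hm hlm]

/-- Independence of the middle place, first form. -/
theorem mid2 (hp : Ps X) (hc : Hom (C (c2 F)) X i) {h k l : ℕ} (hh : h ∈ X) (hk : k ∈ X)
    (hl : l ∈ X) (hhk : Sep h k) (hkl : Sep k l) :
    F (la h) (mu k) (la l) = 1 ↔ F (la h) (mu h) (la l) = 1 := by
  have p1 := hp h hh
  have p2 := hp k hk
  have p3 := hp l hl
  have a0 := hc.one h hh
  have a1 := hc.two h hh k hk hhk
  have a2 := hc.two h hh l hl (sep_trans p2 hhk hkl)
  have a3 := hc.three h hh k hk l hl hhk hkl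
  rw [C_two p1 p2 hhk] at a1
  rw [C_two p1 p3 (sep_trans p2 hhk hkl)] at a2
  rw [C_three p1 p2 p3 hhk hkl] at a3
  have e : ∀ s w, gs (c2 F s (la h)) w = gs (c2 F 0 (la h)) w := fun _ _ => rfl
  unfold C at a0
  simp only [e _ (L h), e _ (L k), e _ (L l)] at a0 a1 a2 a3
  have f1 : c2 F (mu k) (la h) (mu h) (la k) = c2 F (mu l) (la h) (mu h) (la k) := rfl
  rw [f1] at a1
  have key : ∀ i a b c p q r : Bool, a = i → xor (xor a p) b = i → xor (xor a q) c = i →
      xor (xor a p) (xor (xor b r) c) = i → r = q := by decide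
  have := key _ _ _ _ _ _ _ a0 a1 a2 a3
  unfold c2 at this
  simpa using this

/-- Independence of the middle place, second form. -/
theorem mid3 (hp : Ps X) (hc : Hom (C (c3 F)) X i) {h k l : ℕ} (hh : h ∈ X) (hk : k ∈ X)
    (hl : l ∈ X) (hhk : Sep h k) (hkl : Sep k l) :
    F (mu h) (la k) (mu l) = 1 ↔ F (mu h) (la l) (mu l) = 1 := by
  have p1 := hp h hh
  have p2 := hp k hk
  have p3 := hp l hl
  have a0 := hc.one l hl
  have a1 := hc.two k hk l hl hkl
  have a2 := hc.two h hh l hl (sep_trans p2 hhk hkl)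
  have a3 := hc.three h hh k hk l hl hhk hkl
  rw [C_two p2 p3 hkl] at a1
  rw [C_two p1 p3 (sep_trans p2 hhk hkl)] at a2
  rw [C_three p1 p2 p3 hhk hkl] at a3
  have e : ∀ s x w, gs (c3 F s x) w = gs (c3 F s 0) w := fun _ _ _ => rfl
  unfold C at a0
  simp only [e _ _ (L h), e _ _ (L k), e _ _ (L l)] at a0 a1 a2 a3
  have f1 : c3 F (mu l) (la k) (mu k) (la l) = c3 F (mu l) (la h) (mu k) (la l) := rfl
  rw [f1] at a1
  have key : ∀ i a b c p q r : Bool, c = i → xor (xor b r) c = i → xor (xor a q) c = i →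
      xor (xor a p) (xor (xor b r) c) = i → p = q := by decide
  have := key _ _ _ _ _ _ _ a0 a1 a2 a3
  unfold c3 at this
  simpa using this

/-- The relation of four elements. -/
theorem quad (hp : Ps X) (hc : Hom (C (c4 F)) X i) {h k l m : ℕ} (hh : h ∈ X) (hk : k ∈ X)
    (hl : l ∈ X) (hm : m ∈ X) (hhk : Sep h k) (hkl : Sep k l) (hlm : Sep l m) :
    xor (xor (c4 F (mu m) (la h) (mu h) (la m)) (c4 F (mu m) (la h) (mu k) (la m)))
      (xor (c4 F (mu m) (la h) (mu h) (la l)) (c4 F (mu m) (la h) (mu k) (la l))) = false := by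
  have p1 := hp h hh
  have p2 := hp k hk
  have p3 := hp l hl
  have p4 := hp m hm
  have s13 := sep_trans p2 hhk hkl
  have s24 := sep_trans p3 hkl hlm
  have s14 := sep_trans p2 hhk s24
  have a1 := hc.two h hh m hm s14
  have a2 := hc.three h hh k hk m hm hhk s24
  have a3 := hc.three h hh l hl m hm s13 hlm
  have a4 := hc.four h hh k hk l hl m hm hhk hkl hlm
  rw [C_two p1 p4 s14] at a1
  rw [C_three p1 p2 p4 hhk s24] at a2
  rw [C_three p1 p3 p4 s13 hlm] at a3
  rw [C_four p1 p2 p3 p4 hhk hkl hlm] at a4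
  have key : ∀ i n1 n2 n3 n4 v14 v12 v24 v13 v34 v23 : Bool,
      xor (xor n1 v14) n4 = i → xor (xor n1 v12) (xor (xor n2 v24) n4) = i →
      xor (xor n1 v13) (xor (xor n3 v34) n4) = i →
      xor (xor n1 v12) (xor (xor n2 v23) (xor (xor n3 v34) n4)) = i →
      xor (xor v14 v24) (xor v13 v23) = false := by decide
  exact key _ _ _ _ _ _ _ _ _ _ _ a1 a2 a3 a4

/-- The alternative. -/
theorem alt (hp : Ps X) {i2 i3 i4 : Bool} (h2 : Hom (C (c2 F)) X i2) (h3 : Hom (C (c3 F)) X i3)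
    (h4 : Hom (C (c4 F)) X i4) {h k l m : ℕ} (hh : h ∈ X) (hk : k ∈ X)
    (hl : l ∈ X) (hm : m ∈ X) (hhk : Sep h k) (hkl : Sep k l) (hlm : Sep l m)
    (hne : ¬ (F (la h) (mu h) (la l) = 1 ↔ F (la h) (mu h) (la m) = 1)) :
    F (mu k) (la m) (mu m) = 1 ↔ F (mu h) (la m) (mu m) = 1 := by
  have p2 := hp k hk
  have p3 := hp l hl
  have s13 := sep_trans p2 hhk hkl
  have s24 := sep_trans p3 hkl hlm
  have s14 := sep_trans p2 hhk s24
  have q := quad hp h4 hh hk hl hm hhk hkl hlm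
  have b1 := mid2 hp h2 hh hk hl hhk hkl
  have b2 := mid2 hp h2 hh hk hm hhk s24
  have b3 := mid3 hp h3 hh hl hm s13 hlm
  have b4 := mid3 hp h3 hk hl hm hkl hlm
  unfold c4 at q
  simp only [b1, b2, b3, b4] at q
  have key : ∀ a b c d : Bool, a ≠ b → xor (xor (b && c) (b && d)) (xor (a && c) (a && d)) = false →
      d = c := by decide
  have hne' : decide (F (la h) (mu h) (la l) = 1) ≠ decide (F (la h) (mu h) (la m) = 1) := by
    intro hcon
    exact hne (by simpa using hcon)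
  have := key _ _ _ _ hne' q
  simpa using this

end Pool.Agent.H64.IPT
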