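import Pool.Agent.H64.IPT.Alg
import Pool.Graph.R_seed8.Y599.IPT.Fin

/-! The colouring with sixteen colours, its locality and computability. -/

set_option autoImplicit false

namespace Pool.Agent.H64.IPT

open Pool.Agent.Helper446 Pool.Agent.Helper446.RE Pool.Agent.Helper446.Oracle
open Pool.Agent.H645R2.HT Pool.Agent.Y599.IPT

/-- A bit. -/
def bt (b : Bool) : ℕ := if b = true then 1 else 0

/-- The colouring. -/
def col4 (F : ℕ → ℕ → ℕ → ℕ) (n : ℕ) : ℕ :=
  bt (b0 n) + 2 * bt (C (c2 F) n) + 4 * bt (C (c3 F) n) + 8 * bt (C (c4 F) n)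

theorem bt_le (b : Bool) : bt b ≤ 1 := by cases b <;> simp [bt]

theorem col4_lt (F : ℕ → ℕ → ℕ → ℕ) (n : ℕ) : col4 F n < 16 := by
  have h1 := bt_le (b0 n)
  have h2 := bt_le (C (c2 F) n)
  have h3 := bt_le (C (c3 F) n)
  have h4 := bt_le (C (c4 F) n)
  unfold col4
  omega

theorem dec0 (a b c d : Bool) :
    decide ((bt a + 2 * bt b + 4 * bt c + 8 * bt d) % 2 = 1) = a := by
  revert a b c d; decide

theorem dec1 (a b c d : Bool) :
    decide ((bt a + 2 * bt b + 4 * bt c + 8 * bt d) / 2 % 2 = 1) = b := by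
  revert a b c d; decide

theorem dec2 (a b c d : Bool) :
    decide ((bt a + 2 * bt b + 4 * bt c + 8 * bt d) / 4 % 2 = 1) = c := by
  revert a b c d; decide

theorem dec3 (a b c d : Bool) :
    decide ((bt a + 2 * bt b + 4 * bt c + 8 * bt d) / 8 % 2 = 1) = d := by
  revert a b c d; decide

theorem C_cong {γ δ : ℕ → ℕ → ℕ → ℕ → Bool} {n : ℕ}
    (h : ∀ u ≤ n, ∀ v ≤ n, γ (mu n) (la n) u v = δ (mu n) (la n) u v) : C γ n = C δ n := by
  unfold C
  exact gs_congr (L_sorted n).pairwise fun a ha b hb _ => h a (L_le ha) b (L_le hb)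

theorem col4_congr {F F' : ℕ → ℕ → ℕ → ℕ} {n : ℕ}
    (h : ∀ a ≤ n, ∀ b ≤ n, ∀ c ≤ n, F a b c = F' a b c) : col4 F n = col4 F' n := by
  have hm := mu_le n
  have hl := la_le' n
  have e2 : C (c2 F) n = C (c2 F') n := C_cong fun u hu v hv => by
    unfold c2; rw [h _ hl _ hu _ hv]
  have e3 : C (c3 F) n = C (c3 F') n := C_cong fun u hu v hv => by
    unfold c3; rw [h _ hu _ hv _ hm]
  have e4 : C (c4 F) n = C (c4 F') n := C_cong fun u hu v hv => by
    unfold c4; rw [h _ hl _ hu _ hv, h _ hu _ hv _ hm]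
  unfold col4
  rw [e2, e3, e4]

theorem c_FT {α : Type} [Primcodable α] {tb : α → List ℕ} {a b c : α → ℕ} (ht : Computable tb)
    (ha : Computable a) (hb : Computable b) (hc : Computable c) :
    Computable fun x => FT (tb x) (a x) (b x) (c x) := by
  have h1 : Primrec fun p : List ℕ × ℕ × ℕ × ℕ => FT p.1 p.2.1 p.2.2.1 p.2.2.2 :=
    pr_FT Primrec.fst (Primrec.fst.comp Primrec.snd)
      (Primrec.fst.comp (Primrec.snd.comp Primrec.snd))
      (Primrec.snd.comp (Primrec.snd.comp Primrec.snd))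
  exact h1.to_comp.comp (ht.pair (ha.pair (hb.pair hc)))

theorem c_eq1 {α : Type} [Primcodable α] {f : α → ℕ} (hf : Computable f) :
    Computable fun x => decide (f x = 1) := by
  have h1 : PrimrecPred fun n : ℕ => n = 1 := Primrec.eq.comp Primrec.id (Primrec.const 1)
  exact h1.decide.to_comp.comp hf

theorem c_col4 : Computable fun p : ℕ × List ℕ => col4 (FT p.2) p.1 := by
  have k2 : Computable fun p : ℕ × List ℕ => C (c2 (FT p.2)) p.1 := by
    unfold C
    refine c_gs (γ := fun p : ℕ × List ℕ => c2 (FT p.2) (mu p.1) (la p.1)) ?_ (by fun_prop)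
    unfold c2
    exact c_eq1 (c_FT (by fun_prop) (by fun_prop) (by fun_prop) (by fun_prop))
  have k3 : Computable fun p : ℕ × List ℕ => C (c3 (FT p.2)) p.1 := by
    unfold C
    refine c_gs (γ := fun p : ℕ × List ℕ => c3 (FT p.2) (mu p.1) (la p.1)) ?_ (by fun_prop)
    unfold c3
    exact c_eq1 (c_FT (by fun_prop) (by fun_prop) (by fun_prop) (by fun_prop))
  have k4 : Computable fun p : ℕ × List ℕ => C (c4 (FT p.2)) p.1 := by
    unfold C
    refine c_gs (γ := fun p : ℕ × List ℕ => c4 (FT p.2) (mu p.1) (la p.1)) ?_ (by fun_prop)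
    unfold c4
    exact Primrec.and.to_comp.comp
      (c_eq1 (c_FT (by fun_prop) (by fun_prop) (by fun_prop) (by fun_prop)))
      (c_eq1 (c_FT (by fun_prop) (by fun_prop) (by fun_prop) (by fun_prop)))
  have hb : Primrec bt := Primrec.dom_finite _
  have j1 : Computable fun p : ℕ × List ℕ => bt (b0 p.1) :=
    hb.to_comp.comp (c_b0.comp Computable.fst)
  have j2 := hb.to_comp.comp k2
  have j3 := hb.to_comp.comp k3
  have j4 := hb.to_comp.comp k4
  unfold col4
  exact Primrec.nat_add.to_comp.comp (Primrec.nat_add.to_comp.comp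
    (Primrec.nat_add.to_comp.comp j1 (Primrec.nat_mul.to_comp.comp (Computable.const 2) j2))
    (Primrec.nat_mul.to_comp.comp (Computable.const 4) j3))
    (Primrec.nat_mul.to_comp.comp (Computable.const 8) j4)

/-- The colouring is computable in the instance. -/
theorem col4_red (x : ℕ → ℕ) :
    TuringReducible (PFun.lift fun n => col4 (FX x) n) (PFun.lift x) := by
  have h1 := table_red (f := x) (Φ := fun p => col4 (FT p.2) p.1) (B := BB) c_col4
    (by unfold BB; fun_prop)
  have e : (fun n => col4 (FX x) n) =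
      fun n => col4 (FT ((List.range (BB n)).map x)) n := by
    funext n
    exact col4_congr fun a ha b hb c hc => FT_table ha hb hc
  rw [e]
  exact h1

end Pool.Agent.H64.IPT
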