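import Pool.Agent.H64.IPT.Col

/-! The sets computed from a homogeneous set, and the main theorem. -/

set_option autoImplicit false

namespace Pool.Agent.H64.IPT

open Pool.Agent.Helper446 Pool.Agent.Helper446.RE Pool.Agent.Helper446.Oracle
open Pool.Agent.Helper446.Defs
open Pool.Agent.H645R2.HT Pool.Agent.Y599.IPT Encodable

/-- The solution computed from a computable sequence. -/
theorem solve {h e : ℕ → ℕ} (h1 : ∀ m, h m ≤ 1) (he : TotIn {m : ℕ | h m = 1} e) {ps : ℕ → ℕ → ℕ}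
    (cps : Computable fun p : ℕ × ℕ => ps p.1 p.2) (hb : ∀ q n, n ≤ ps q (e n)) :
    ∃ g : ℕ → ℕ, (∀ m, g m ≤ 1) ∧ TuringReducible (PFun.lift g) (PFun.lift h) ∧
      ∀ q, g q = 1 ↔ ∃ n, ps q (e n) = q.unpair.2 := by
  classical
  let D : Set ℕ := {q | ∃ n, ps q (e n) = q.unpair.2}
  have hg : REIn {m : ℕ | h m = 1} fun p : ℕ × ℕ => e p.1 = p.2 := by
    refine (graph_of_recursiveIn he).of_eq fun p => ?_
    rw [Part.mem_some_iff]
    exact eq_comm
  have hD1 : REIn {m : ℕ | h m = 1} (· ∈ D) := by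
    have h2 : REIn {m : ℕ | h m = 1} fun q : ℕ => ∃ p : ℕ × ℕ, e p.1 = p.2 ∧
        ps q p.2 = q.unpair.2 := by
      refine REIn.ex (S := fun (q : ℕ) (p : ℕ × ℕ) => e p.1 = p.2 ∧ ps q p.2 = q.unpair.2) ?_
      refine REIn.and (hg.comp (f := fun x : ℕ × ℕ × ℕ => x.2) (by fun_prop)) (REIn.of_re ?_)
      exact RE.eq (cps.comp (g := fun x : ℕ × ℕ × ℕ => (x.1, x.2.2)) (by fun_prop)) (by fun_prop)
    refine h2.of_eq fun q => ?_
    constructor
    · rintro ⟨p, h3, h4⟩
      exact ⟨p.1, by rw [h3]; exact h4⟩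
    · rintro ⟨n, hn⟩
      exact ⟨(n, e n), rfl, hn⟩
  have hD2 : REIn {m : ℕ | h m = 1} (· ∉ D) := by
    have h2 : REIn {m : ℕ | h m = 1} fun q : ℕ => ∀ n < q.unpair.2 + 1,
        ∃ v, e n = v ∧ ps q v ≠ q.unpair.2 := by
      refine REIn.all_lt (S := fun (q : ℕ) n => ∃ v, e n = v ∧ ps q v ≠ q.unpair.2) ?_
        (by fun_prop)
      refine REIn.ex (S := fun (x : ℕ × ℕ) v => e x.2 = v ∧ ps x.1 v ≠ x.1.unpair.2) ?_
      refine REIn.and (hg.comp (f := fun x : (ℕ × ℕ) × ℕ => (x.1.2, x.2)) (by fun_prop))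
        (REIn.of_re ?_)
      exact RE.ne (cps.comp (g := fun x : (ℕ × ℕ) × ℕ => (x.1.1, x.2)) (by fun_prop))
        (by fun_prop)
    refine h2.of_eq fun q => ?_
    constructor
    · rintro h3 ⟨n, hn⟩
      have := hb q n
      obtain ⟨v, h4, h5⟩ := h3 n (by omega)
      rw [h4] at hn
      exact h5 hn
    · intro h3 n _
      exact ⟨e n, rfl, fun h4 => h3 ⟨n, h4⟩⟩
  have hred := turingReducible_iff.2 ⟨hD1, hD2⟩
  have e1 : (PFun.lift h : ℕ →. ℕ) = chi {m : ℕ | h m = 1} := by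
    funext m
    show Part.some (h m) = Part.some (chiN _ m)
    congr 1
    by_cases hm : h m = 1
    · rw [chiN_eq_one.2 (show m ∈ {m : ℕ | h m = 1} from hm), hm]
    · rw [chiN_eq_zero.2 (show m ∉ {m : ℕ | h m = 1} from hm)]
      have := h1 m
      omega
  refine ⟨chiN D, fun m => ?_, ?_, fun q => ?_⟩
  · by_cases hm : m ∈ D
    · rw [chiN_eq_one.2 hm]
    · rw [chiN_eq_zero.2 hm]; omega
  · rw [e1]; exact hred
  · rw [chiN_eq_one]
    exact Iff.rfl

/-- Middle place `la`, outer places `mu`. -/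
def psA (q v : ℕ) : ℕ := if q.unpair.1 = 1 then la v else mu v

/-- Middle place `mu`, outer places `la`. -/
def psB (q v : ℕ) : ℕ := if q.unpair.1 = 1 then mu v else la v

theorem c_psA : Computable fun p : ℕ × ℕ => psA p.1 p.2 :=
  RE.cite (RE.cp_eq (by fun_prop) (by fun_prop)) (by fun_prop) (by fun_prop)

theorem c_psB : Computable fun p : ℕ × ℕ => psB p.1 p.2 :=
  RE.cite (RE.cp_eq (by fun_prop) (by fun_prop)) (by fun_prop) (by fun_prop)

/-- The conclusion about the three sets coded by `g`. -/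
def Concl (x g : ℕ → ℕ) : Prop :=
  (∀ i : ℕ, i < 3 → Set.Infinite {m : ℕ | g (Nat.pair i m) = 1}) ∧
  (∀ a b b' c : ℕ, a < b → b < c → a < b' → b' < c →
    g (Nat.pair 0 a) = 1 → g (Nat.pair 1 b) = 1 → g (Nat.pair 1 b') = 1 →
    g (Nat.pair 2 c) = 1 → x (Nat.pair a (Nat.pair b c)) = x (Nat.pair a (Nat.pair b' c))) ∧
  ((∀ a : ℕ, g (Nat.pair 0 a) = 1 → ∃ v N : ℕ, ∀ b c : ℕ, a < b → b < c → N ≤ c →
      g (Nat.pair 1 b) = 1 → g (Nat.pair 2 c) = 1 → x (Nat.pair a (Nat.pair b c)) = v) ∨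
    (∀ a a' : ℕ, g (Nat.pair 0 a) = 1 → g (Nat.pair 0 a') = 1 → ∃ N : ℕ, ∀ b b' c : ℕ,
      a < b → b < c → a' < b' → b' < c → N ≤ c →
      g (Nat.pair 1 b) = 1 → g (Nat.pair 1 b') = 1 → g (Nat.pair 2 c) = 1 →
      x (Nat.pair a (Nat.pair b c)) = x (Nat.pair a' (Nat.pair b' c))))

theorem eq_of_iff {x : ℕ → ℕ} (hx : ∀ m, x m < 2) {p q : ℕ} (h : x p = 1 ↔ x q = 1) :
    x p = x q := by
  have h1 := hx p
  have h2 := hx q
  by_cases h3 : x p = 1
  · rw [h3, h.1 h3]
  · have h4 : x q ≠ 1 := fun h5 => h3 (h.2 h5)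
    omega

theorem main {x h : ℕ → ℕ} (hx : ∀ m, x m < 2) (hh : ∀ m, h m ≤ 1)
    (hp : Ps {m : ℕ | h m = 1}) (hf : Far {m : ℕ | h m = 1}) {i2 i3 i4 : Bool}
    (h2 : Hom (C (c2 (FX x))) {m : ℕ | h m = 1} i2) (h3 : Hom (C (c3 (FX x))) {m : ℕ | h m = 1} i3)
    (h4 : Hom (C (c4 (FX x))) {m : ℕ | h m = 1} i4) :
    ∃ g : ℕ → ℕ, (∀ m, g m ≤ 1) ∧ TuringReducible (PFun.lift g) (PFun.lift h) ∧ Concl x g := by
  classical
  obtain ⟨e, he, he1, he2⟩ := seq_exists hf
  have hpos : ∀ n, 0 < e n := fun n => hp _ (he1 n)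
  have hlm : ∀ n, la (e n) ≤ mu (e n) := fun n => la_le_mu (hpos n)
  have hsep : ∀ i j, i < j → H645R2.HT.Sep (e i) (e j) := by
    intro i j hij
    induction j, hij using Nat.le_induction with
    | base => exact he2 i
    | succ j hij ih => exact sep_trans (hpos j) ih (he2 j)
  have hsl : ∀ i j, i < j → mu (e i) < la (e j) := fun i j hij => hsep i j hij
  have hlen : ∀ n, n ≤ la (e n) := by
    intro n
    induction n with
    | zero => omega
    | succ n ih =>
      have := hsl n (n + 1) (by omega)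
      have := hlm n
      omega
  -- order facts
  have o1 : ∀ i j, la (e i) < mu (e j) → i ≤ j := by
    intro i j hij
    by_contra hc
    have := hsl j i (by omega)
    omega
  have o2 : ∀ j k, mu (e j) < la (e k) → j < k := by
    intro j k hjk
    by_contra hc
    rcases Nat.lt_or_ge k j with h1 | h1
    · have := hsl k j h1
      have := hlm k
      have := hlm j
      omega
    · have : k = j := by omega
      subst this
      have := hlm k
      omega
  have o3 : ∀ i k, la (e i) ≤ la (e k) → i ≤ k := by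
    intro i k hik
    by_contra hc
    have := hsl k i (by omega)
    have := hlm k
    omega
  have o4 : ∀ i k, mu (e i) ≤ mu (e k) → i ≤ k := by
    intro i k hik
    by_contra hc
    have := hsl k i (by omega)
    have := hlm i
    omega
  have m2 : ∀ i a b, i ≤ a → a < b → (FX x (la (e i)) (mu (e a)) (la (e b)) = 1 ↔
      FX x (la (e i)) (mu (e i)) (la (e b)) = 1) := by
    intro i a b hia hab
    rcases hia.lt_or_eq with h1 | h1
    · exact mid2 hp h2 (he1 i) (he1 a) (he1 b) (hsep i a h1) (hsep a b hab)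
    · subst h1; exact Iff.rfl
  have m3 : ∀ a b k, a < b → b ≤ k → (FX x (mu (e a)) (la (e b)) (mu (e k)) = 1 ↔
      FX x (mu (e a)) (la (e k)) (mu (e k)) = 1) := by
    intro a b k hab hbk
    rcases hbk.lt_or_eq with h1 | h1
    · exact mid3 hp h3 (he1 a) (he1 b) (he1 k) (hsep a b hab) (hsep b k h1)
    · subst h1; exact Iff.rfl
  by_cases hcase : ∀ i, ∃ N, ∀ b c, N ≤ b → N ≤ c → i < b → i < c →
      (FX x (la (e i)) (mu (e i)) (la (e b)) = 1 ↔ FX x (la (e i)) (mu (e i)) (la (e c)) = 1)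
  · obtain ⟨g, g1, g2, g3⟩ := solve (e := e) hh he c_psB (fun q n => by
      have := hlen n
      have := hlm n
      unfold psB
      split_ifs <;> omega)
    have q0 : ∀ m, g (Nat.pair 0 m) = 1 ↔ ∃ n, la (e n) = m := fun m => by
      rw [g3]; simp [psB, Nat.unpair_pair]
    have q1 : ∀ m, g (Nat.pair 1 m) = 1 ↔ ∃ n, mu (e n) = m := fun m => by
      rw [g3]; simp [psB, Nat.unpair_pair]
    have q2 : ∀ m, g (Nat.pair 2 m) = 1 ↔ ∃ n, la (e n) = m := fun m => by
      rw [g3]; simp [psB, Nat.unpair_pair]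
    have il : (Set.range fun n => la (e n)).Infinite :=
      Set.infinite_range_of_injective (fun i k hik => by
        have a1 := o3 i k (le_of_eq hik)
        have a2 := o3 k i (le_of_eq hik.symm)
        omega)
    have im : (Set.range fun n => mu (e n)).Infinite :=
      Set.infinite_range_of_injective (fun i k hik => by
        have a1 := o4 i k (le_of_eq hik)
        have a2 := o4 k i (le_of_eq hik.symm)
        omega)
    refine ⟨g, g1, g2, fun i hi => ?_, ?_, Or.inl ?_⟩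
    · have hi' : i = 0 ∨ i = 1 ∨ i = 2 := by omega
      rcases hi' with rfl | rfl | rfl
      · exact il.mono (by rintro _ ⟨n, rfl⟩; exact (q0 _).2 ⟨n, rfl⟩)
      · exact im.mono (by rintro _ ⟨n, rfl⟩; exact (q1 _).2 ⟨n, rfl⟩)
      · exact il.mono (by rintro _ ⟨n, rfl⟩; exact (q2 _).2 ⟨n, rfl⟩)
    · intro a b b' c hab hbc hab' hbc' ga gb gb' gc
      obtain ⟨i, rfl⟩ := (q0 a).1 ga
      obtain ⟨j, rfl⟩ := (q1 b).1 gb
      obtain ⟨j', rfl⟩ := (q1 b').1 gb'
      obtain ⟨k, rfl⟩ := (q2 c).1 gc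
      refine eq_of_iff hx ?_
      exact (m2 i j k (o1 _ _ hab) (o2 _ _ hbc)).trans (m2 i j' k (o1 _ _ hab') (o2 _ _ hbc')).symm
    · intro a ga
      obtain ⟨i, rfl⟩ := (q0 a).1 ga
      obtain ⟨N, hN⟩ := hcase i
      refine ⟨x (Nat.pair (la (e i)) (Nat.pair (mu (e i)) (la (e (max N (i + 1)))))),
        la (e N), fun b c hab hbc hc gb gc => ?_⟩
      obtain ⟨j, rfl⟩ := (q1 b).1 gb
      obtain ⟨k, rfl⟩ := (q2 c).1 gc
      refine eq_of_iff hx ?_
      have hik := o1 _ _ hab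
      have hjk := o2 _ _ hbc
      exact (m2 i j k hik hjk).trans (hN k _ (o3 _ _ hc) (le_max_left _ _) (by omega)
        (lt_of_lt_of_le (Nat.lt_succ_self i) (le_max_right _ _)))
  · push Not at hcase
    obtain ⟨i0, hi0⟩ := hcase
    have key : ∀ a, i0 ≤ a → ∃ K, ∀ k, K ≤ k → (FX x (mu (e a)) (la (e k)) (mu (e k)) = 1 ↔
        FX x (mu (e i0)) (la (e k)) (mu (e k)) = 1) := by
      intro a ha
      rcases ha.lt_or_eq with h5 | h5
      · obtain ⟨b, c, hb, hc, _, _, hne⟩ := hi0 (a + 1)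
        have hne' : ¬ (FX x (la (e i0)) (mu (e i0)) (la (e b)) = 1 ↔
            FX x (la (e i0)) (mu (e i0)) (la (e c)) = 1) := by
          intro hcon
          rcases hne with ⟨u1, u2⟩ | ⟨u1, u2⟩
          · exact u2 (hcon.1 u1)
          · exact u1 (hcon.2 u2)
        refine ⟨max b c + 1, fun k hk => ?_⟩
        have hbk : b < k := by have := le_max_left b c; omega
        have hck : c < k := by have := le_max_right b c; omega
        by_cases hq : (FX x (la (e i0)) (mu (e i0)) (la (e b)) = 1 ↔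
            FX x (la (e i0)) (mu (e i0)) (la (e k)) = 1)
        · refine alt hp h2 h3 h4 (he1 i0) (he1 a) (he1 c) (he1 k) (hsep _ _ h5)
            (hsep _ _ (by omega)) (hsep _ _ hck) fun hq' => hne' (hq.trans hq'.symm)
        · exact alt hp h2 h3 h4 (he1 i0) (he1 a) (he1 b) (he1 k) (hsep _ _ h5)
            (hsep _ _ (by omega)) (hsep _ _ hbk) hq
      · subst h5
        exact ⟨0, fun k _ => Iff.rfl⟩
    let e' : ℕ → ℕ := fun n => e (n + i0)
    have he' : TotIn {m : ℕ | h m = 1} e' :=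
      he.comp (TotIn.of_comp (f := fun n => n + i0) (by fun_prop))
    obtain ⟨g, g1, g2, g3⟩ := solve (e := e') hh he' c_psA (fun q n => by
      have := hlen (n + i0)
      have := hlm (n + i0)
      show n ≤ psA q (e (n + i0))
      unfold psA
      split_ifs <;> omega)
    have q0 : ∀ m, g (Nat.pair 0 m) = 1 ↔ ∃ n, mu (e (n + i0)) = m := fun m => by
      rw [g3]; simp [psA, Nat.unpair_pair, e']
    have q1 : ∀ m, g (Nat.pair 1 m) = 1 ↔ ∃ n, la (e (n + i0)) = m := fun m => by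
      rw [g3]; simp [psA, Nat.unpair_pair, e']
    have q2 : ∀ m, g (Nat.pair 2 m) = 1 ↔ ∃ n, mu (e (n + i0)) = m := fun m => by
      rw [g3]; simp [psA, Nat.unpair_pair, e']
    have o1' : ∀ i j, mu (e i) < la (e j) → i < j := o2
    have o2' : ∀ j k, la (e j) < mu (e k) → j ≤ k := o1
    have il : (Set.range fun n => la (e (n + i0))).Infinite :=
      Set.infinite_range_of_injective (fun i k hik => by
        have a1 := o3 (i + i0) (k + i0) (le_of_eq hik)
        have a2 := o3 (k + i0) (i + i0) (le_of_eq hik.symm)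
        omega)
    have im : (Set.range fun n => mu (e (n + i0))).Infinite :=
      Set.infinite_range_of_injective (fun i k hik => by
        have a1 := o4 (i + i0) (k + i0) (le_of_eq hik)
        have a2 := o4 (k + i0) (i + i0) (le_of_eq hik.symm)
        omega)
    refine ⟨g, g1, g2, fun i hi => ?_, ?_, Or.inr ?_⟩
    · have hi' : i = 0 ∨ i = 1 ∨ i = 2 := by omega
      rcases hi' with rfl | rfl | rfl
      · exact im.mono (by rintro _ ⟨n, rfl⟩; exact (q0 _).2 ⟨n, rfl⟩)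
      · exact il.mono (by rintro _ ⟨n, rfl⟩; exact (q1 _).2 ⟨n, rfl⟩)
      · exact im.mono (by rintro _ ⟨n, rfl⟩; exact (q2 _).2 ⟨n, rfl⟩)
    · intro a b b' c hab hbc hab' hbc' ga gb gb' gc
      obtain ⟨i, rfl⟩ := (q0 a).1 ga
      obtain ⟨j, rfl⟩ := (q1 b).1 gb
      obtain ⟨j', rfl⟩ := (q1 b').1 gb'
      obtain ⟨k, rfl⟩ := (q2 c).1 gc
      refine eq_of_iff hx ?_
      exact (m3 _ _ _ (o1' _ _ hab) (o2' _ _ hbc)).trans
        (m3 _ _ _ (o1' _ _ hab') (o2' _ _ hbc')).symm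
    · intro a a' ga ga'
      obtain ⟨i, rfl⟩ := (q0 a).1 ga
      obtain ⟨i', rfl⟩ := (q0 a').1 ga'
      obtain ⟨K, hK⟩ := key (i + i0) (by omega)
      obtain ⟨K', hK'⟩ := key (i' + i0) (by omega)
      refine ⟨mu (e (max K K')), fun b b' c hab hbc hab' hbc' hc gb gb' gc => ?_⟩
      obtain ⟨j, rfl⟩ := (q1 b).1 gb
      obtain ⟨j', rfl⟩ := (q1 b').1 gb'
      obtain ⟨k, rfl⟩ := (q2 c).1 gc
      have hk := o4 _ _ hc
      have hk1 : K ≤ k + i0 := le_trans (le_max_left _ _) hk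
      have hk2 : K' ≤ k + i0 := le_trans (le_max_right _ _) hk
      refine eq_of_iff hx ?_
      exact (m3 _ _ _ (o1' _ _ hab) (o2' _ _ hbc)).trans ((hK _ hk1).trans
        ((hK' _ hk2).symm.trans (m3 _ _ _ (o1' _ _ hab') (o2' _ _ hbc')).symm))

end Pool.Agent.H64.IPT
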